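import Pool.Agent.helper58.CRO.SpecG

/-!
# Row cro:GVD (MP_5bf3c3_gt): superadditivity of the Riemannian volume
-/

open scoped Manifold ContDiff Topology ENNReal
open MeasureTheory Set Bundle Filter

noncomputable section

namespace Pool.Agent.CRO

universe u

/-- Admissible families for `A`. -/
structure GVD_Fam {n : ℕ} {M : Type u} [TopologicalSpace M] [ChartedSpace (En n) M]
    [IsManifold (𝓡 n) ∞ M] (A : Set M) where
  k : ℕ
  e : Fin k → OpenPartialHomeomorph M (En n)
  S : Fin k → Set M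
  h : (∀ i, e i ∈ IsManifold.maximalAtlas (𝓡 n) ∞ M) ∧ (∀ i, MeasurableSet (e i '' S i)) ∧
      (∀ i, S i ⊆ A ∩ (e i).source) ∧ Pairwise (Function.onFun Disjoint S)

variable {n : ℕ} {M : Type u} [TopologicalSpace M] [ChartedSpace (En n) M]
    [IsManifold (𝓡 n) ∞ M]

/-- The value of a family. -/
def GVD_val (g : RMetric n M) {A : Set M} (F : GVD_Fam (n := n) A) : ℝ≥0∞ :=
  ∑ i, ∫⁻ y in F.e i '' F.S i, ENNReal.ofReal (dens g (F.e i) y)

lemma GVD_eq (g : RMetric n M) (A : Set M) :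
    gvol g A = ⨆ F : GVD_Fam (n := n) A, GVD_val g F := by
  unfold gvol
  apply le_antisymm
  · refine iSup_le fun k => iSup_le fun e => iSup_le fun S => iSup_le fun h => ?_
    exact le_iSup (fun F : GVD_Fam (n := n) A => GVD_val g F) ⟨k, e, S, h⟩
  · refine iSup_le fun F => ?_
    exact le_iSup_of_le F.k (le_iSup_of_le F.e (le_iSup_of_le F.S (le_iSup_of_le F.h le_rfl)))

instance GVD_ne (A : Set M) : Nonempty (GVD_Fam (n := n) A) :=
  ⟨⟨0, fun i => i.elim0, fun i => i.elim0, fun i => i.elim0, fun i => i.elim0,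
    fun i => i.elim0, fun i => i.elim0⟩⟩

theorem GVD : GVD_stmt.{u} := by
  intro n M _ _ _ g A B C hAB hAC hBC
  rw [GVD_eq g A, GVD_eq g B, GVD_eq g C]
  refine ENNReal.iSup_add_iSup_le fun F G => ?_
  obtain ⟨e', hel, her⟩ : ∃ e' : Fin (F.k + G.k) → OpenPartialHomeomorph M (En n),
      (∀ i, e' (Fin.castAdd G.k i) = F.e i) ∧ (∀ i, e' (Fin.natAdd F.k i) = G.e i) :=
    ⟨Fin.append (α := OpenPartialHomeomorph M (En n)) F.e G.e,
      fun i => Fin.append_left (α := OpenPartialHomeomorph M (En n)) F.e G.e i,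
      fun i => Fin.append_right (α := OpenPartialHomeomorph M (En n)) F.e G.e i⟩
  obtain ⟨S', hSl, hSr⟩ : ∃ S' : Fin (F.k + G.k) → Set M,
      (∀ i, S' (Fin.castAdd G.k i) = F.S i) ∧ (∀ i, S' (Fin.natAdd F.k i) = G.S i) :=
    ⟨Fin.append (α := Set M) F.S G.S,
      fun i => Fin.append_left (α := Set M) F.S G.S i,
      fun i => Fin.append_right (α := Set M) F.S G.S i⟩
  have hFG : (∀ i, e' i ∈ IsManifold.maximalAtlas (𝓡 n) ∞ M) ∧
      (∀ i, MeasurableSet (e' i '' S' i)) ∧
      (∀ i, S' i ⊆ C ∩ (e' i).source) ∧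
      Pairwise (Function.onFun Disjoint S') := by
    refine ⟨?_, ?_, ?_, ?_⟩
    · intro i
      refine Fin.addCases (fun i => ?_) (fun i => ?_) i
      · rw [hel]; exact F.h.1 i
      · rw [her]; exact G.h.1 i
    · intro i
      refine Fin.addCases (fun i => ?_) (fun i => ?_) i
      · rw [hel, hSl]; exact F.h.2.1 i
      · rw [her, hSr]; exact G.h.2.1 i
    · intro i
      refine Fin.addCases (fun i => ?_) (fun i => ?_) i
      · rw [hel, hSl]
        exact fun x hx => ⟨hAC (F.h.2.2.1 i hx).1, (F.h.2.2.1 i hx).2⟩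
      · rw [her, hSr]
        exact fun x hx => ⟨hBC (G.h.2.2.1 i hx).1, (G.h.2.2.1 i hx).2⟩
    · intro i j
      refine Fin.addCases (fun i => ?_) (fun i => ?_) i <;>
        refine Fin.addCases (fun j => ?_) (fun j => ?_) j <;> intro hij
      · show Disjoint (S' _) (S' _)
        rw [hSl, hSl]
        exact F.h.2.2.2 (fun h => hij (by rw [h]))
      · show Disjoint (S' _) (S' _)
        rw [hSl, hSr]
        exact Disjoint.mono (fun x hx => (F.h.2.2.1 i hx).1) (fun x hx => (G.h.2.2.1 j hx).1) hAB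
      · show Disjoint (S' _) (S' _)
        rw [hSl, hSr]
        exact Disjoint.mono (fun x hx => (G.h.2.2.1 i hx).1) (fun x hx => (F.h.2.2.1 j hx).1)
          hAB.symm
      · show Disjoint (S' _) (S' _)
        rw [hSr, hSr]
        exact G.h.2.2.2 (fun h => hij (by rw [h]))
  refine le_trans (le_of_eq ?_)
    (le_iSup (fun F : GVD_Fam (n := n) C => GVD_val g F) ⟨F.k + G.k, e', S', hFG⟩)
  show GVD_val g F + GVD_val g G = ∑ i : Fin (F.k + G.k),
    ∫⁻ y in e' i '' S' i, ENNReal.ofReal (dens g (e' i) y)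
  rw [Fin.sum_univ_add]
  unfold GVD_val
  congr 1
  · refine Finset.sum_congr rfl fun i _ => ?_
    rw [hel, hSl]
  · refine Finset.sum_congr rfl fun i _ => ?_
    rw [her, hSr]

end Pool.Agent.CRO
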